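import Mathlib

/-! Auxiliary one-dimensional lemma for the Lelong monotonicity (task L5). -/

namespace Pool.Agent.H224R2.Mah

open MeasureTheory Set Filter Topology
open scoped ENNReal

/-- cutoffs increasing to the indicator of `(s,t)` -/
noncomputable def l5eta (s t : ℝ) (k : ℕ) (g : ℝ) : ℝ := min 1 (k * max 0 (min (g - s) (t - g)))

/-- the test functions -/
noncomputable def l5psi (n : ℕ) (s t : ℝ) (k : ℕ) (g : ℝ) : ℝ :=
  n * (1 / (max g s) ^ (n + 1)) * l5eta s t k g

/-- the limit of the test functions -/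
noncomputable def l5lim (n : ℕ) (s t : ℝ) (g : ℝ) : ℝ :=
  if s < g ∧ g < t then n * (1 / g ^ (n + 1)) else 0

theorem l5eta_cont (s t : ℝ) (k : ℕ) : Continuous (l5eta s t k) := by
  unfold l5eta; fun_prop

theorem l5eta_nonneg (s t : ℝ) (k : ℕ) (g : ℝ) : 0 ≤ l5eta s t k g := by
  unfold l5eta
  exact le_min zero_le_one (mul_nonneg (Nat.cast_nonneg k) (le_max_left _ _))

theorem l5eta_le (s t : ℝ) (k : ℕ) (g : ℝ) : l5eta s t k g ≤ 1 := min_le_left _ _

theorem l5eta_zero_left {s t : ℝ} (k : ℕ) {g : ℝ} (hg : g ≤ s) : l5eta s t k g = 0 := by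
  unfold l5eta
  have : max 0 (min (g - s) (t - g)) = 0 := by
    apply max_eq_left; exact (min_le_left _ _).trans (by linarith)
  rw [this]; simp

theorem l5eta_zero_right {s t : ℝ} (k : ℕ) {g : ℝ} (hg : t ≤ g) : l5eta s t k g = 0 := by
  unfold l5eta
  have : max 0 (min (g - s) (t - g)) = 0 := by
    apply max_eq_left; exact (min_le_right _ _).trans (by linarith)
  rw [this]; simp

theorem l5psi_cont (n : ℕ) {s : ℝ} (hs : 0 < s) (t : ℝ) (k : ℕ) : Continuous (l5psi n s t k) := by
  unfold l5psi
  have h1 : Continuous fun g : ℝ => (max g s) ^ (n + 1) := by fun_prop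
  have h2 : ∀ g : ℝ, (max g s) ^ (n + 1) ≠ 0 := fun g =>
    pow_ne_zero _ (lt_of_lt_of_le hs (le_max_right _ _)).ne'
  exact ((continuous_const.mul (continuous_const.div h1 h2))).mul (l5eta_cont s t k)

theorem l5psi_nonneg (n : ℕ) {s : ℝ} (hs : 0 < s) (t : ℝ) (k : ℕ) (g : ℝ) :
    0 ≤ l5psi n s t k g := by
  unfold l5psi
  have : 0 < max g s := lt_of_lt_of_le hs (le_max_right _ _)
  exact mul_nonneg (by positivity) (l5eta_nonneg _ _ _ _)

theorem l5psi_le (n : ℕ) {s : ℝ} (hs : 0 < s) (t : ℝ) (k : ℕ) (g : ℝ) :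
    l5psi n s t k g ≤ n * (1 / s ^ (n + 1)) := by
  unfold l5psi
  have h1 : 0 < max g s := lt_of_lt_of_le hs (le_max_right _ _)
  have h2 : s ^ (n + 1) ≤ (max g s) ^ (n + 1) := pow_le_pow_left₀ hs.le (le_max_right _ _) _
  have h3 : 1 / (max g s) ^ (n + 1) ≤ 1 / s ^ (n + 1) :=
    one_div_le_one_div_of_le (by positivity) h2
  calc n * (1 / (max g s) ^ (n + 1)) * l5eta s t k g
      ≤ n * (1 / (max g s) ^ (n + 1)) * 1 :=
        mul_le_mul_of_nonneg_left (l5eta_le _ _ _ _) (by positivity)
    _ ≤ n * (1 / s ^ (n + 1)) := by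
        rw [mul_one]; exact mul_le_mul_of_nonneg_left h3 (by positivity)

theorem l5psi_zero_left (n : ℕ) {s t : ℝ} (k : ℕ) {g : ℝ} (hg : g ≤ s) : l5psi n s t k g = 0 := by
  unfold l5psi; rw [l5eta_zero_left k hg, mul_zero]

theorem l5psi_zero_right (n : ℕ) {s t : ℝ} (k : ℕ) {g : ℝ} (hg : t ≤ g) :
    l5psi n s t k g = 0 := by
  unfold l5psi; rw [l5eta_zero_right k hg, mul_zero]

theorem l5psi_tendsto (n : ℕ) (s t g : ℝ) :
    Tendsto (fun k : ℕ => l5psi n s t k g) atTop (𝓝 (l5lim n s t g)) := by
  by_cases h : s < g ∧ g < t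
  · have h1 : l5lim n s t g = n * (1 / g ^ (n + 1)) := by unfold l5lim; rw [if_pos h]
    have hpos : 0 < min (g - s) (t - g) := lt_min (by linarith [h.1]) (by linarith [h.2])
    apply tendsto_const_nhds.congr'
    obtain ⟨K, hK⟩ := exists_nat_ge (1 / min (g - s) (t - g))
    filter_upwards [eventually_ge_atTop K] with k hk
    have hk' : 1 ≤ (k : ℝ) * min (g - s) (t - g) := by
      have : (K : ℝ) ≤ k := by exact_mod_cast hk
      rw [div_le_iff₀ hpos] at hK
      nlinarith
    have he : l5eta s t k g = 1 := by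
      unfold l5eta
      rw [max_eq_right hpos.le]
      exact min_eq_left hk'
    rw [h1, l5psi, he, max_eq_left h.1.le, mul_one]
  · have h1 : l5lim n s t g = 0 := by unfold l5lim; rw [if_neg h]
    rw [h1]
    apply tendsto_const_nhds.congr
    intro k
    rw [not_and_or, not_lt, not_lt] at h
    rcases h with h | h
    · exact (l5psi_zero_left n k h).symm
    · exact (l5psi_zero_right n k h).symm

/-- the primitives `χ_k(g) = ∫_g^t ψ_k` -/
noncomputable def l5chi (n : ℕ) (s t : ℝ) (k : ℕ) (g : ℝ) : ℝ := ∫ r in g..t, l5psi n s t k r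

theorem l5chi_deriv (n : ℕ) {s : ℝ} (hs : 0 < s) (t : ℝ) (k : ℕ) (g : ℝ) :
    HasDerivAt (l5chi n s t k) (-l5psi n s t k g) g := by
  unfold l5chi
  exact intervalIntegral.integral_hasDerivAt_left
    ((l5psi_cont n hs t k).intervalIntegrable _ _)
    ((l5psi_cont n hs t k).stronglyMeasurableAtFilter _ _) (l5psi_cont n hs t k).continuousAt

theorem l5chi_zero (n : ℕ) (s t : ℝ) (k : ℕ) {g : ℝ} (hg : t ≤ g) : l5chi n s t k g = 0 := by
  unfold l5chi
  rw [intervalIntegral.integral_symm, neg_eq_zero]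
  apply intervalIntegral.integral_zero_ae
  refine Eventually.of_forall fun x hx => ?_
  rw [uIoc_of_le hg] at hx
  exact l5psi_zero_right n k hx.1.le

theorem l5chi_left (n : ℕ) {s : ℝ} (hs : 0 < s) (t : ℝ) (k : ℕ) {g : ℝ} (hg : g ≤ s) :
    l5chi n s t k g = l5chi n s t k s := by
  unfold l5chi
  rw [← intervalIntegral.integral_add_adjacent_intervals
    ((l5psi_cont n hs t k).intervalIntegrable g s) ((l5psi_cont n hs t k).intervalIntegrable s t)]
  rw [add_eq_right]
  apply intervalIntegral.integral_zero_ae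
  refine Eventually.of_forall fun x hx => ?_
  rw [uIoc_of_le hg] at hx
  exact l5psi_zero_left n k hx.2

theorem l5chi_abs_le (n : ℕ) {s : ℝ} (hs : 0 < s) {t : ℝ} (hst : s < t) (k : ℕ) (g : ℝ) :
    |l5chi n s t k g| ≤ n * (1 / s ^ (n + 1)) * (t - s) := by
  have key : ∀ g, s ≤ g → g ≤ t → |l5chi n s t k g| ≤ n * (1 / s ^ (n + 1)) * (t - s) := by
    intro g h1 h2
    unfold l5chi
    have := intervalIntegral.norm_integral_le_of_norm_le_const (a := g) (b := t)
      (C := n * (1 / s ^ (n + 1))) (f := l5psi n s t k) (fun x _ => by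
        rw [Real.norm_eq_abs, abs_of_nonneg (l5psi_nonneg n hs t k x)]
        exact l5psi_le n hs t k x)
    rw [Real.norm_eq_abs] at this
    refine this.trans ?_
    rw [abs_of_nonneg (by linarith)]
    exact mul_le_mul_of_nonneg_left (by linarith) (by positivity)
  rcases le_total g s with h | h
  · rw [l5chi_left n hs t k h]
    exact key s le_rfl hst.le
  · rcases le_total g t with h' | h'
    · exact key g h h'
    · rw [l5chi_zero n s t k h', abs_zero]
      have : 0 ≤ t - s := by linarith
      positivity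

theorem l5lim_integral (n : ℕ) {s : ℝ} (hs : 0 < s) {t : ℝ} {g : ℝ} (h1 : s ≤ g)
    (h2 : g ≤ t) : ∫ r in g..t, l5lim n s t r = 1 / g ^ n - 1 / t ^ n := by
  have hg : 0 < g := lt_of_lt_of_le hs h1
  have e1 : ∫ r in g..t, l5lim n s t r = ∫ r in g..t, (n : ℝ) * (1 / r ^ (n + 1)) := by
    apply intervalIntegral.integral_congr_ae
    have : ∀ᵐ x : ℝ ∂volume, x ≠ t := by
      have := (Set.finite_singleton t).measure_zero (volume : Measure ℝ)
      rw [← compl_mem_ae_iff] at this
      filter_upwards [this] with x hx using hx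
    filter_upwards [this] with x hxt hx
    rw [uIoc_of_le h2] at hx
    unfold l5lim
    rw [if_pos ⟨lt_of_le_of_lt h1 hx.1, lt_of_le_of_ne hx.2 hxt⟩]
  rw [e1]
  have hd : ∀ x ∈ uIcc g t, HasDerivAt (fun r : ℝ => -(1 / r ^ n)) ((n : ℝ) * (1 / x ^ (n + 1))) x := by
    intro x hx
    rw [uIcc_of_le h2] at hx
    have hx0 : x ≠ 0 := (lt_of_lt_of_le hg hx.1).ne'
    have h := ((hasDerivAt_pow n x).inv (pow_ne_zero n hx0)).neg
    have e : (fun r : ℝ => -(1 / r ^ n)) = -(fun r : ℝ => (r ^ n))⁻¹ := by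
      funext r; simp
    rw [e]
    have h2 : (n : ℝ) * (1 / x ^ (n + 1)) = -(-(n * x ^ (n - 1)) / (x ^ n) ^ 2) := by
      rcases n with _ | n
      · simp
      · simp only [Nat.add_sub_cancel]
        field_simp
        ring
    rw [h2]
    exact h
  have hc : ContinuousOn (fun r : ℝ => (n : ℝ) * (1 / r ^ (n + 1))) (uIcc g t) := by
    rw [uIcc_of_le h2]
    apply ContinuousOn.mul continuousOn_const
    apply ContinuousOn.div continuousOn_const (by fun_prop)
    intro x hx
    exact pow_ne_zero _ (lt_of_lt_of_le hg hx.1).ne'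
  rw [intervalIntegral.integral_eq_sub_of_hasDerivAt hd hc.intervalIntegrable]
  ring

theorem l5lim_left (n : ℕ) {s t g : ℝ} (hs : 0 < s) (hst : s < t) (hg : g ≤ s) :
    ∫ r in g..t, l5lim n s t r = 1 / s ^ n - 1 / t ^ n := by
  have i0 : ∀ a b : ℝ, a ≤ b → b ≤ s → ∫ r in a..b, l5lim n s t r = 0 := by
    intro a b hab hb
    apply intervalIntegral.integral_zero_ae
    refine Eventually.of_forall fun x hx => ?_
    rw [uIoc_of_le hab] at hx
    unfold l5lim
    rw [if_neg]; rintro ⟨h, -⟩; linarith [hx.2]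
  have hm : Measurable (l5lim n s t) := by
    unfold l5lim
    apply Measurable.ite (measurableSet_Ioo : MeasurableSet (Ioo s t)) _ measurable_const
    fun_prop
  have hb : ∀ x, ‖l5lim n s t x‖ ≤ n * (1 / s ^ (n + 1)) := by
    intro x
    unfold l5lim
    split_ifs with h
    · have h1 : 0 < x := hs.trans h.1
      rw [Real.norm_eq_abs, abs_of_nonneg (by positivity)]
      exact mul_le_mul_of_nonneg_left (one_div_le_one_div_of_le (by positivity)
        (pow_le_pow_left₀ hs.le h.1.le _)) (by positivity)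
    · rw [norm_zero]; positivity
  have hi : ∀ a b : ℝ, IntervalIntegrable (l5lim n s t) volume a b := by
    intro a b
    refine (intervalIntegrable_const (c := (n * (1 / s ^ (n + 1)) : ℝ))).mono_fun
      hm.aestronglyMeasurable (Eventually.of_forall fun x => ?_)
    refine (hb x).trans (le_abs_self _)
  rw [← intervalIntegral.integral_add_adjacent_intervals (hi g s) (hi s t), i0 g s hg le_rfl,
    zero_add, l5lim_integral n hs le_rfl hst.le]

theorem l5chi_tendsto (n : ℕ) {s t : ℝ} (hs : 0 < s) (hst : s < t) (g : ℝ) (hgt : g ≤ t) :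
    Tendsto (fun k : ℕ => l5chi n s t k g) atTop (𝓝 (1 / (max g s) ^ n - 1 / t ^ n)) := by
  have h1 : Tendsto (fun k : ℕ => l5chi n s t k g) atTop (𝓝 (∫ r in g..t, l5lim n s t r)) := by
    unfold l5chi
    apply intervalIntegral.tendsto_integral_filter_of_dominated_convergence
      (fun _ => n * (1 / s ^ (n + 1)))
    · exact Eventually.of_forall fun k => ((l5psi_cont n hs t k).aestronglyMeasurable)
    · refine Eventually.of_forall fun k => Eventually.of_forall fun x _ => ?_
      rw [Real.norm_eq_abs, abs_of_nonneg (l5psi_nonneg n hs t k x)]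
      exact l5psi_le n hs t k x
    · exact intervalIntegrable_const
    · exact Eventually.of_forall fun x _ => l5psi_tendsto n s t x
  rcases le_total g s with h | h
  · rw [l5lim_left n hs hst h] at h1
    rwa [max_eq_right h]
  · rw [l5lim_integral n hs h hgt] at h1
    rwa [max_eq_left h]

/-- the limit of `n χ_k(g) - g ψ_k(g)` -/
noncomputable def l5f (n : ℕ) (s t : ℝ) (g : ℝ) : ℝ :=
  n * ((Iic s).indicator (fun _ => 1 / s ^ n) g - (Iio t).indicator (fun _ => 1 / t ^ n) g)

theorem l5f_tendsto (n : ℕ) {s t : ℝ} (hs : 0 < s) (hst : s < t) (g : ℝ) :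
    Tendsto (fun k : ℕ => n * l5chi n s t k g - g * l5psi n s t k g) atTop
      (𝓝 (l5f n s t g)) := by
  rcases lt_or_ge g t with h | h
  · have h1 := ((l5chi_tendsto n hs hst g h.le).const_mul (n : ℝ)).sub
      ((l5psi_tendsto n s t g).const_mul g)
    convert h1 using 2
    unfold l5f l5lim
    rcases le_or_gt g s with h' | h'
    · rw [indicator_of_mem (show g ∈ Iic s from h'), indicator_of_mem (show g ∈ Iio t from h),
        max_eq_right h', if_neg (by rintro ⟨h2, -⟩; linarith)]
      ring
    · rw [indicator_of_notMem (show g ∉ Iic s from not_le.2 h'),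
        indicator_of_mem (show g ∈ Iio t from h), max_eq_left h'.le, if_pos ⟨h', h⟩]
      have hg : g ≠ 0 := (hs.trans h').ne'
      field_simp
      ring
  · have h1 : l5f n s t g = 0 := by
      unfold l5f
      rw [indicator_of_notMem (show g ∉ Iic s from not_le.2 (hst.trans_le h)),
        indicator_of_notMem (show g ∉ Iio t from not_lt.2 h)]
      ring
    rw [h1]
    apply tendsto_const_nhds.congr
    intro k
    rw [l5chi_zero n s t k h, l5psi_zero_right n k h]; ring

/-- The abstract monotonicity lemma. -/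
theorem l5_abs {α : Type*} [MeasurableSpace α] (μ : Measure α) [IsFiniteMeasure μ] (G : α → ℝ)
    (hG : Measurable G) (n : ℕ) {s t : ℝ} (hs : 0 < s) (hst : s < t)
    (h : ∀ k : ℕ, n * ∫ x, l5chi n s t k (G x) ∂μ ≤ ∫ x, G x * l5psi n s t k (G x) ∂μ) :
    t ^ n * μ.real {x | G x ≤ s} ≤ s ^ n * μ.real {x | G x < t} := by
  have ht : 0 < t := hs.trans hst
  rcases Nat.eq_zero_or_pos n with rfl | hn
  · simp only [pow_zero, one_mul]
    exact measureReal_mono (fun x (hx : G x ≤ s) => lt_of_le_of_lt hx hst)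
  have hχc : ∀ k, Continuous (l5chi n s t k) := fun k =>
    continuous_iff_continuousAt.2 fun g => (l5chi_deriv n hs t k g).continuousAt
  have hb2 : ∀ k g, |g * l5psi n s t k g| ≤ t * (n * (1 / s ^ (n + 1))) := by
    intro k g
    rcases le_or_gt g s with h1 | h1
    · rw [l5psi_zero_left n k h1, mul_zero, abs_zero]; positivity
    · rcases le_or_gt t g with h2 | h2
      · rw [l5psi_zero_right n k h2, mul_zero, abs_zero]; positivity
      · have hg : 0 < g := hs.trans h1
        rw [abs_of_nonneg (mul_nonneg hg.le (l5psi_nonneg n hs t k g))]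
        exact mul_le_mul h2.le (l5psi_le n hs t k g) (l5psi_nonneg n hs t k g) ht.le
  have i1 : ∀ k, Integrable (fun x => l5chi n s t k (G x)) μ := fun k =>
    Integrable.of_bound ((hχc k).measurable.comp hG).aestronglyMeasurable _
      (Eventually.of_forall fun x => l5chi_abs_le n hs hst k (G x))
  have i2 : ∀ k, Integrable (fun x => G x * l5psi n s t k (G x)) μ := fun k =>
    Integrable.of_bound (hG.mul ((l5psi_cont n hs t k).measurable.comp hG)).aestronglyMeasurable _
      (Eventually.of_forall fun x => hb2 k (G x))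
  have h3 : ∀ k, ∫ x, (n * l5chi n s t k (G x) - G x * l5psi n s t k (G x)) ∂μ ≤ 0 := by
    intro k
    rw [integral_sub ((i1 k).const_mul _) (i2 k), integral_const_mul]
    linarith [h k]
  have h4 : Tendsto (fun k => ∫ x, (n * l5chi n s t k (G x) - G x * l5psi n s t k (G x)) ∂μ) atTop
      (𝓝 (∫ x, l5f n s t (G x) ∂μ)) := by
    apply tendsto_integral_of_dominated_convergence
      (fun _ => n * (n * (1 / s ^ (n + 1)) * (t - s)) + t * (n * (1 / s ^ (n + 1))))
    · exact fun k => (((i1 k).const_mul _).sub (i2 k)).aestronglyMeasurable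
    · exact integrable_const _
    · intro k
      refine Eventually.of_forall fun x => ?_
      rw [Real.norm_eq_abs]
      refine (abs_sub _ _).trans (add_le_add ?_ (hb2 k (G x)))
      rw [abs_mul, Nat.abs_cast]
      exact mul_le_mul_of_nonneg_left (l5chi_abs_le n hs hst k (G x)) (by positivity)
    · exact Eventually.of_forall fun x => l5f_tendsto n hs hst (G x)
  have h5 : ∫ x, l5f n s t (G x) ∂μ ≤ 0 := le_of_tendsto' h4 h3
  have hA : MeasurableSet {x | G x ≤ s} := measurableSet_le hG measurable_const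
  have hB : MeasurableSet {x | G x < t} := measurableSet_lt hG measurable_const
  have h6 : ∫ x, l5f n s t (G x) ∂μ =
      n * (1 / s ^ n * μ.real {x | G x ≤ s} - 1 / t ^ n * μ.real {x | G x < t}) := by
    have e : (fun x => l5f n s t (G x)) = fun x =>
        (n : ℝ) * ({x | G x ≤ s}.indicator (fun _ => 1 / s ^ n) x -
          {x | G x < t}.indicator (fun _ => 1 / t ^ n) x) := by
      funext x; rfl
    rw [e, integral_const_mul, integral_sub ((integrable_const _).indicator hA)
      ((integrable_const _).indicator hB), integral_indicator_const _ hA,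
      integral_indicator_const _ hB]
    simp only [smul_eq_mul]
    ring
  rw [h6] at h5
  have hn' : (0 : ℝ) < n := by exact_mod_cast hn
  have h7 : 1 / s ^ n * μ.real {x | G x ≤ s} - 1 / t ^ n * μ.real {x | G x < t} ≤ 0 := by
    by_contra hcon
    push Not at hcon
    have := mul_pos hn' hcon
    linarith
  have hsn : 0 < s ^ n := by positivity
  have htn : 0 < t ^ n := by positivity
  have h8 : (s ^ n * t ^ n) * (1 / s ^ n * μ.real {x | G x ≤ s}) ≤
      (s ^ n * t ^ n) * (1 / t ^ n * μ.real {x | G x < t}) :=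
    mul_le_mul_of_nonneg_left (by linarith) (by positivity)
  have e1 : (s ^ n * t ^ n) * (1 / s ^ n * μ.real {x | G x ≤ s}) =
      t ^ n * μ.real {x | G x ≤ s} := by field_simp
  have e2 : (s ^ n * t ^ n) * (1 / t ^ n * μ.real {x | G x < t}) =
      s ^ n * μ.real {x | G x < t} := by field_simp
  rwa [e1, e2] at h8

end Pool.Agent.H224R2.Mah
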