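import Pool.Agent.H224R2.Mah.Defs

/-! Continuity and compactness facts for the Lelong monotonicity (task L5). -/

namespace Pool.Agent.H224R2.Mah

open MeasureTheory Set Filter Topology
open scoped ENNReal

section
variable {n : ℕ} {ι : Type} [Fintype ι]

theorem l5_uu_cont (a : Fin n → ℝ) : Continuous (uu a) := by
  unfold uu; fun_prop

theorem l5_Om_open {P : Set ℂ} (hP : IsOpen P) (a : ι → Fin n → ℝ) : IsOpen (Om P a) := by
  have : Om P a = ⋂ j, (uu (a j)) ⁻¹' P := by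
    ext z; simp [Om]
  rw [this]
  exact isOpen_iInter_of_finite fun j => hP.preimage (l5_uu_cont (a j))

/-- the linear map `z ↦ (⟨z, a_j⟩)_j` -/
noncomputable def l5T (a : ι → Fin n → ℝ) : (Fin n → ℂ) →ₗ[ℂ] (ι → ℂ) where
  toFun z j := uu (a j) z
  map_add' x y := by
    funext j; simp only [uu, Pi.add_apply, mul_add, Finset.sum_add_distrib]
  map_smul' c x := by
    funext j
    simp only [uu, Pi.smul_apply, smul_eq_mul, RingHom.id_apply, Finset.mul_sum]
    exact Finset.sum_congr rfl fun k _ => by ring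

theorem l5T_ker (a : ι → Fin n → ℝ) (hspan : Submodule.span ℝ (Set.range a) = ⊤) :
    LinearMap.ker (l5T a) = ⊥ := by
  rw [LinearMap.ker_eq_bot']
  intro z hz
  have h1 : ∀ j, uu (a j) z = 0 := fun j => congrFun hz j
  have h2 : ∀ v : Fin n → ℝ, ∑ k, (v k : ℂ) * z k = 0 := by
    intro v
    have hv : v ∈ Submodule.span ℝ (Set.range a) := by rw [hspan]; trivial
    induction hv using Submodule.span_induction with
    | mem x hx => obtain ⟨j, rfl⟩ := hx; exact h1 j
    | zero => simp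
    | add x y _ _ hx hy =>
      simp only [Pi.add_apply, Complex.ofReal_add, add_mul, Finset.sum_add_distrib, hx, hy, add_zero]
    | smul c x _ hx =>
      simp only [Pi.smul_apply, smul_eq_mul, Complex.ofReal_mul, mul_assoc]
      rw [← Finset.mul_sum, hx, mul_zero]
  funext k
  have h3 := h2 (Pi.single k 1)
  rw [Finset.sum_eq_single k] at h3
  · simpa using h3
  · intro b _ hb
    simp [Pi.single_apply, hb]
  · intro h; exact absurd (Finset.mem_univ k) h

theorem l5_S_contOn {P : Set ℂ} {S : ℂ → ℝ} (h : PSH P S) : ContinuousOn S P := h.smooth.continuousOn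

theorem l5_fderiv {P : Set ℂ} (hP : IsOpen P) {S : ℂ → ℝ} {m : ℕ} (h : ContDiffOn ℝ (m + 1 : ℕ) S P)
    (w : ℂ) : ContDiffOn ℝ (m : ℕ) (fun u => fderiv ℝ S u w) P := by
  have h1 : ContDiffOn ℝ (m : ℕ) (fderiv ℝ S) P := by
    apply h.fderiv_of_isOpen hP
    exact_mod_cast le_rfl
  exact h1.clm_apply contDiffOn_const

theorem l5_dx {P : Set ℂ} (hP : IsOpen P) {S : ℂ → ℝ} (h : PSH P S) : ContDiffOn ℝ 2 (dx S) P :=
  l5_fderiv hP (m := 2) (by exact_mod_cast h.smooth) 1

theorem l5_dy {P : Set ℂ} (hP : IsOpen P) {S : ℂ → ℝ} (h : PSH P S) : ContDiffOn ℝ 2 (dy S) P :=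
  l5_fderiv hP (m := 2) (by exact_mod_cast h.smooth) Complex.I

theorem l5_lap {P : Set ℂ} (hP : IsOpen P) {S : ℂ → ℝ} (h : PSH P S) : ContinuousOn (lap S) P := by
  have h1 : ContDiffOn ℝ 1 (dx (dx S)) P :=
    l5_fderiv hP (m := 1) (by exact_mod_cast l5_dx hP h) 1
  have h2 : ContDiffOn ℝ 1 (dy (dy S)) P :=
    l5_fderiv hP (m := 1) (by exact_mod_cast l5_dy hP h) Complex.I
  exact h1.continuousOn.add h2.continuousOn

theorem l5_comp {P : Set ℂ} {f : ι → ℂ → ℝ} (hf : ∀ j, ContinuousOn (f j) P)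
    (a : ι → Fin n → ℝ) : ContinuousOn (fun z (j : ι) => f j (uu (a j) z)) (Om P a) := by
  rw [continuousOn_pi]
  intro j
  exact (hf j).comp (l5_uu_cont (a j)).continuousOn fun z hz => hz j

theorem l5_G_contOn {P : Set ℂ} {S : ι → ℂ → ℝ} (hS : ∀ j, PSH P (S j)) (a : ι → Fin n → ℝ) :
    ContinuousOn (GG S a) (Om P a) := by
  have h := l5_comp (fun j => l5_S_contOn (hS j)) a
  have h2 : Continuous fun c : ι → ℝ => ∑ j, c j := by fun_prop
  exact h2.comp_continuousOn h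

theorem l5_mat_cont (a : ι → Fin n → ℝ) : Continuous fun c : ι → ℝ => mat c a := by
  unfold mat
  fun_prop

theorem l5_det_contOn {P : Set ℂ} (hP : IsOpen P) {S : ι → ℂ → ℝ} (hS : ∀ j, PSH P (S j))
    (a : ι → Fin n → ℝ) :
    ContinuousOn (fun z => (MM (fun j => lap (S j)) a z).det) (Om P a) := by
  have h := l5_comp (fun j => l5_lap hP (hS j)) a
  exact (l5_mat_cont a).matrix_det.comp_continuousOn h

theorem l5_vx_contOn {P : Set ℂ} (hP : IsOpen P) {S : ι → ℂ → ℝ} (hS : ∀ j, PSH P (S j))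
    (a : ι → Fin n → ℝ) : ContinuousOn (vx S a) (Om P a) := by
  have h1 := l5_comp (fun j => (l5_dx hP (hS j)).continuousOn) a
  have h2 : Continuous fun c : ι → ℝ => ∑ j, c j • a j := by fun_prop
  exact h2.comp_continuousOn h1

theorem l5_vy_contOn {P : Set ℂ} (hP : IsOpen P) {S : ι → ℂ → ℝ} (hS : ∀ j, PSH P (S j))
    (a : ι → Fin n → ℝ) : ContinuousOn (vy S a) (Om P a) := by
  have h1 := l5_comp (fun j => (l5_dy hP (hS j)).continuousOn) a
  have h2 : Continuous fun c : ι → ℝ => ∑ j, c j • a j := by fun_prop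
  exact h2.comp_continuousOn h1

theorem l5_adj_contOn {P : Set ℂ} (hP : IsOpen P) {S : ι → ℂ → ℝ} (hS : ∀ j, PSH P (S j))
    (a : ι → Fin n → ℝ) :
    ContinuousOn (fun z => (MM (fun j => lap (S j)) a z).adjugate) (Om P a) := by
  have h := l5_comp (fun j => l5_lap hP (hS j)) a
  exact (l5_mat_cont a).matrix_adjugate.comp_continuousOn h

theorem l5_EE_contOn {P : Set ℂ} (hP : IsOpen P) {S : ι → ℂ → ℝ} (hS : ∀ j, PSH P (S j))
    (a : ι → Fin n → ℝ) : ContinuousOn (EE S a) (Om P a) := by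
  have hx := l5_vx_contOn hP hS a
  have hy := l5_vy_contOn hP hS a
  have hA := l5_adj_contOn hP hS a
  rw [continuousOn_iff_continuous_domRestrict] at hx hy hA ⊢
  exact (hx.dotProduct (hA.matrix_mulVec hx)).add (hy.dotProduct (hA.matrix_mulVec hy))

theorem l5_compact {P : Set ℂ} {S : ι → ℂ → ℝ} (a : ι → Fin n → ℝ)
    (hspan : Submodule.span ℝ (Set.range a) = ⊤) (hS : ∀ j, PSH P (S j))
    (hcomp : ∀ j, ∀ t < 1, IsCompact {u | u ∈ P ∧ S j u ≤ t}) {τ : ℝ} (hτ : τ < 1) :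
    IsCompact {z | z ∈ Om P a ∧ GG S a z ≤ τ} := by
  have hC : IsCompact (l5T a ⁻¹' (Set.univ.pi fun j => {u | u ∈ P ∧ S j u ≤ τ})) := by
    exact (LinearMap.isClosedEmbedding_of_injective (l5T_ker a hspan)).isCompact_preimage
      (isCompact_univ_pi fun j => hcomp j τ hτ)
  set C := l5T a ⁻¹' (Set.univ.pi fun j => {u | u ∈ P ∧ S j u ≤ τ}) with hCdef
  have hCO : C ⊆ Om P a := fun z hz j => (hz j (mem_univ j)).1
  have hcl : IsClosed (C ∩ GG S a ⁻¹' Iic τ) :=
    ((l5_G_contOn hS a).mono hCO).preimage_isClosed_of_isClosed hC.isClosed isClosed_Iic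
  have e : {z | z ∈ Om P a ∧ GG S a z ≤ τ} = C ∩ GG S a ⁻¹' Iic τ := by
    ext z
    constructor
    · rintro ⟨h1, h2⟩
      refine ⟨fun j _ => ⟨h1 j, ?_⟩, h2⟩
      have h3 : S j (uu (a j) z) ≤ GG S a z :=
        Finset.single_le_sum (f := fun j => S j (uu (a j) z))
          (fun i _ => (hS i).nonneg _ (h1 i)) (Finset.mem_univ j)
      exact h3.trans h2
    · rintro ⟨h1, h2⟩
      exact ⟨hCO h1, h2⟩
  rw [e]
  exact hC.of_isClosed_subset hcl inter_subset_left

end

end Pool.Agent.H224R2.Mah
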