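import Pool.Agent.H224R2.Mah.Defs
import Pool.Agent.H19R2.Mah.L1_adj
import Pool.Agent.H648R2.Mah.Abs
import Pool.Agent.H648R2.Mah.Geo

/-! Task L5: Lelong monotonicity. -/

namespace Pool.Agent.H224R2.Mah

open MeasureTheory Set Filter Topology
open scoped ENNReal

section
variable {n : ℕ} {ι : Type} [Fintype ι]

theorem l5_det_nonneg (a : ι → Fin n → ℝ) (m : ι → ℝ) (hm : ∀ j, 0 ≤ m j) :
    0 ≤ (mat m a).det := by
  have h : (mat m a).PosSemidef := by
    unfold mat
    apply Matrix.posSemidef_sum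
    intro j _
    apply Matrix.PosSemidef.smul _ (hm j)
    have := Matrix.posSemidef_vecMulVec_self_star (a j)
    simpa using this
  exact h.det_nonneg

/-- L5. Lelong monotonicity of `V(t)/t^n`, from the integration by parts L4. -/
theorem L5_lelong_of (P : Set ℂ) (hP : IsOpen P) (S : ι → ℂ → ℝ) (a : ι → Fin n → ℝ)
    (hspan : Submodule.span ℝ (Set.range a) = ⊤) (hS : ∀ j, PSH P (S j))
    (hcomp : ∀ j, ∀ t < 1, IsCompact {u | u ∈ P ∧ S j u ≤ t})
    (hL4 : ∀ (χ χ' : ℝ → ℝ) (_ : ∀ g, HasDerivAt χ (χ' g) g) (_ : Continuous χ') (τ : ℝ)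
      (_ : τ < 1) (_ : ∀ g, τ ≤ g → χ g = 0),
      n * ∫ z in Om P a, χ (GG S a z) * (MM (fun j => lap (S j)) a z).det =
      - ∫ z in Om P a, χ' (GG S a z) * EE S a z)
    (s t : ℝ) (hs : 0 < s) (hst : s ≤ t) (ht : t < 1) :
    VV P S a s * ENNReal.ofReal (t ^ n) ≤ VV P S a t * ENNReal.ofReal (s ^ n) := by
  rcases hst.eq_or_lt with rfl | hst
  · exact le_rfl
  classical
  set D : (Fin n → ℂ) → ℝ := fun z => (MM (fun j => lap (S j)) a z).det with hD
  set K : Set (Fin n → ℂ) := {z | z ∈ Om P a ∧ GG S a z ≤ t} with hK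
  have hKc : IsCompact K := l5_compact a hspan hS hcomp ht
  have hKO : K ⊆ Om P a := fun z hz => hz.1
  have hKm : MeasurableSet K := hKc.isClosed.measurableSet
  have hOm : MeasurableSet (Om P a) := (l5_Om_open hP a).measurableSet
  have hGc : ContinuousOn (GG S a) K := (l5_G_contOn hS a).mono hKO
  have hDc : ContinuousOn D K := (l5_det_contOn hP hS a).mono hKO
  -- pointwise inequality from L1
  have hDE : ∀ z ∈ Om P a, EE S a z ≤ GG S a z * D z := by
    intro z hz
    exact L1_adj a (fun j => lap (S j) (uu (a j) z)) (fun j => dx (S j) (uu (a j) z))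
      (fun j => dy (S j) (uu (a j) z)) (fun j => S j (uu (a j) z))
      (fun j => (hS j).lap_nonneg _ (hz j)) (fun j => (hS j).nonneg _ (hz j))
      (fun j => (hS j).grad _ (hz j))
  have hD0 : ∀ z ∈ Om P a, 0 ≤ D z := by
    intro z hz
    exact l5_det_nonneg a _ (fun j => (hS j).lap_nonneg _ (hz j))
  -- the measurable version of `G`
  set G : (Fin n → ℂ) → ℝ := K.piecewise (GG S a) (fun _ => t + 1) with hG
  have hGm : Measurable G := hGc.measurable_piecewise continuousOn_const hKm
  have hGK : ∀ z ∈ K, G z = GG S a z := fun z hz => piecewise_eq_of_mem _ _ _ hz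
  -- the measure
  set ν : Measure (Fin n → ℂ) := (volume.restrict K).withDensity (fun z => ENNReal.ofReal (D z))
    with hν
  have hDi : IntegrableOn D K := hDc.integrableOn_compact hKc
  have hDm : AEMeasurable D (volume.restrict K) := hDi.aestronglyMeasurable.aemeasurable
  have hDae : 0 ≤ᵐ[volume.restrict K] D := by
    filter_upwards [ae_restrict_mem hKm] with z hz using hD0 z (hKO hz)
  have hνfin : IsFiniteMeasure ν := by
    refine isFiniteMeasure_withDensity_ofReal ?_
    exact hDi.2
  -- integrals w.r.t. ν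
  have hint : ∀ F : ℝ → ℝ, ∫ z, F (G z) ∂ν = ∫ z in K, F (GG S a z) * D z := by
    intro F
    rw [hν, integral_withDensity_eq_integral_toReal_smul₀ hDm.ennreal_ofReal
      (Eventually.of_forall fun z => ENNReal.ofReal_lt_top)]
    apply setIntegral_congr_fun hKm
    intro z hz
    simp only [ENNReal.toReal_ofReal (hD0 z (hKO hz)), smul_eq_mul, hGK z hz]
    ring
  -- extension by zero
  have hext : ∀ F : (Fin n → ℂ) → ℝ, (∀ z ∈ Om P a, t ≤ GG S a z → F z = 0) →
      ∫ z in Om P a, F z = ∫ z in K, F z := by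
    intro F hF
    apply setIntegral_eq_of_subset_of_forall_sdiff_eq_zero hOm hKO
    rintro z ⟨h1, h2⟩
    apply hF z h1
    by_contra hcon
    exact h2 ⟨h1, (not_le.1 hcon).le⟩
  have hmain := l5_abs ν G hGm n hs hst (by
    intro k
    have h1 := hL4 (l5chi n s t k) (fun g => -l5psi n s t k g) (fun g => l5chi_deriv n hs t k g)
      (l5psi_cont n hs t k).neg t ht (fun g hg => l5chi_zero n s t k hg)
    have e1 : ∫ z, l5chi n s t k (G z) ∂ν =
        ∫ z in Om P a, l5chi n s t k (GG S a z) * (MM (fun j => lap (S j)) a z).det := by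
      rw [hint (l5chi n s t k), hext _ (fun z _ hz => by
        rw [l5chi_zero n s t k hz, zero_mul])]
    have e2 : ∫ z, G z * l5psi n s t k (G z) ∂ν =
        ∫ z in K, (GG S a z * l5psi n s t k (GG S a z)) * D z :=
      hint (fun g => g * l5psi n s t k g)
    rw [e1, e2, h1]
    have e3 : (- ∫ z in Om P a, -l5psi n s t k (GG S a z) * EE S a z) =
        ∫ z in K, l5psi n s t k (GG S a z) * EE S a z := by
      rw [← integral_neg]
      rw [hext _ (fun z _ hz => by rw [l5psi_zero_right n k hz]; ring)]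
      apply integral_congr_ae
      exact Eventually.of_forall fun z => by ring
    rw [e3]
    have hψc : ContinuousOn (fun z => l5psi n s t k (GG S a z)) K :=
      (l5psi_cont n hs t k).comp_continuousOn hGc
    apply setIntegral_mono_on
    · exact (hψc.mul ((l5_EE_contOn hP hS a).mono hKO)).integrableOn_compact hKc
    · exact ((hGc.mul hψc).mul hDc).integrableOn_compact hKc
    · exact hKm
    · intro z hz
      have h2 := mul_le_mul_of_nonneg_left (hDE z (hKO hz)) (l5psi_nonneg n hs t k (GG S a z))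
      calc _ ≤ _ := h2
        _ = _ := by ring)
  -- translate the conclusion
  have hset : ∀ A : Set ℝ, MeasurableSet A → (∀ g ∈ A, g ≤ t) →
      ν (G ⁻¹' A) = ∫⁻ z in {z | z ∈ Om P a ∧ GG S a z ∈ A}, ENNReal.ofReal (D z) := by
    intro A hA hAt
    rw [hν, withDensity_apply _ (hGm hA), Measure.restrict_restrict (hGm hA)]
    congr 2
    ext z
    constructor
    · rintro ⟨h1, h2⟩
      refine ⟨hKO h2, ?_⟩
      have : G z ∈ A := h1
      rwa [hGK z h2] at this
    · rintro ⟨h1, h2⟩
      have h3 : z ∈ K := ⟨h1, hAt _ h2⟩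
      refine ⟨?_, h3⟩
      change G z ∈ A
      rwa [hGK z h3]
  have hVt : VV P S a t = ν {z | G z < t} := by
    have := hset (Iio t) measurableSet_Iio (fun g hg => le_of_lt hg)
    exact this.symm
  have hVs : VV P S a s ≤ ν {z | G z ≤ s} := by
    have h1 := hset (Iio s) measurableSet_Iio (fun g hg => (lt_trans hg hst).le)
    have h2 : VV P S a s = ν {z | G z < s} := h1.symm
    rw [h2]
    exact measure_mono fun z (hz : G z < s) => (show G z ≤ s from hz.le)
  have hfin1 : ν {z | G z ≤ s} ≠ ∞ := measure_ne_top _ _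
  have hfin2 : ν {z | G z < t} ≠ ∞ := measure_ne_top _ _
  have hs0 : 0 ≤ s ^ n := by positivity
  have ht0 : 0 ≤ t ^ n := pow_nonneg (hs.trans hst).le n
  have h9 : ν {z | G z ≤ s} * ENNReal.ofReal (t ^ n) ≤
      ν {z | G z < t} * ENNReal.ofReal (s ^ n) := by
    rw [← ENNReal.ofReal_toReal hfin1, ← ENNReal.ofReal_toReal hfin2,
      ← ENNReal.ofReal_mul ENNReal.toReal_nonneg, ← ENNReal.ofReal_mul ENNReal.toReal_nonneg]
    apply ENNReal.ofReal_le_ofReal
    have := hmain
    simp only [Measure.real] at this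
    linarith
  calc VV P S a s * ENNReal.ofReal (t ^ n) ≤ ν {z | G z ≤ s} * ENNReal.ofReal (t ^ n) := by
        gcongr
    _ ≤ ν {z | G z < t} * ENNReal.ofReal (s ^ n) := h9
    _ = VV P S a t * ENNReal.ofReal (s ^ n) := by rw [hVt]

end

end Pool.Agent.H224R2.Mah
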